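import Pool.Agent.H31.EH.Targets
import Pool.Agent.H79.HF.Jj
import Pool.Agent.H24.LVP.RES2
import Pool.Agent.H24.CLK.Res

/-!
# The critical mean value, exponent one half: the final statement (helper31)
-/

set_option autoImplicit false

open Finset MeasureTheory

namespace Pool.Agent.H31.EH

open Pool.Agent.H24.CL Pool.Agent.H24.LV Pool.Agent.H24.LVP Pool.Agent.H79.HF

/-- the gain function -/
noncomputable def Ph (L : ℝ) : ℝ := L * Real.log (3 + L)

theorem log3_ge_one {L : ℝ} (hL : 0 ≤ L) : 1 ≤ Real.log (3 + L) := by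
  rw [Real.le_log_iff_exp_le (by linarith)]
  linarith [Real.exp_one_lt_d9]

theorem gain_Ph : GainF Ph := by
  have h2 : 0 < Real.log 2 := Real.log_pos (by norm_num)
  refine ⟨fun L hL => ?_, fun L L' hL hLL' => ?_⟩
  · have hL0 : 0 ≤ L := h2.le.trans hL
    exact le_mul_of_one_le_right hL0 (log3_ge_one hL0)
  · have hL0 : 0 ≤ L := h2.le.trans hL
    have h3 : 0 ≤ Real.log (3 + L) := zero_le_one.trans (log3_ge_one hL0)
    exact mul_le_mul hLL' (Real.log_le_log (by linarith) (by linarith)) h3 (hL0.trans hLL')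

theorem srpg_of (h : T_SRH) : T_SRPg Ph := h

/-- the comparison of the two forms of the loss -/
theorem loss_le : ∃ A : ℝ, 0 ≤ A ∧ ∀ L : ℝ, Real.log 3 ≤ L →
    (1 + Ph L) ^ (1 / 2 : ℝ) ≤ A * (L * Real.log L) ^ (1 / 2 : ℝ) := by
  obtain ⟨l, hl⟩ : ∃ l : ℝ, l = Real.log (Real.log 3) := ⟨_, rfl⟩
  have h31 : 1 < Real.log 3 := by
    rw [Real.lt_log_iff_exp_lt (by norm_num)]
    linarith [Real.exp_one_lt_d9]
  have hl0 : 0 < l := by rw [hl]; exact Real.log_pos h31
  obtain ⟨B, hB⟩ : ∃ B : ℝ, B = (1 + Real.log 4) / l + 1 := ⟨_, rfl⟩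
  have h40 : 0 ≤ Real.log 4 := Real.log_nonneg (by norm_num)
  have hB0 : 0 ≤ B := by rw [hB]; positivity
  refine ⟨B ^ (1 / 2 : ℝ), Real.rpow_nonneg hB0 _, fun L hL => ?_⟩
  have hL1 : 1 < L := lt_of_lt_of_le h31 hL
  have hL0 : 0 < L := by linarith
  have hlL : l ≤ Real.log L := by
    rw [hl]
    exact Real.log_le_log (by linarith) hL
  have h1 : Real.log (3 + L) ≤ Real.log 4 + Real.log L := by
    rw [← Real.log_mul (by norm_num) hL0.ne']
    exact Real.log_le_log (by linarith) (by linarith)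
  have h2 : 1 + Real.log 4 ≤ (1 + Real.log 4) / l * Real.log L := by
    rw [div_mul_eq_mul_div, le_div_iff₀ hl0]
    exact mul_le_mul_of_nonneg_left hlL (by linarith)
  have h3 : 1 + Ph L ≤ B * (L * Real.log L) := by
    have h4 : L * Real.log (3 + L) ≤ L * (Real.log 4 + Real.log L) :=
      mul_le_mul_of_nonneg_left h1 hL0.le
    have h5 : L * (1 + Real.log 4) ≤ L * ((1 + Real.log 4) / l * Real.log L) :=
      mul_le_mul_of_nonneg_left h2 hL0.le
    unfold Ph
    rw [hB]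
    nlinarith
  have hLL : 0 ≤ L * Real.log L := mul_nonneg hL0.le (Real.log_nonneg hL1.le)
  rw [← Real.mul_rpow hB0 hLL]
  have h6 : 0 ≤ 1 + Ph L := by
    unfold Ph
    have := mul_nonneg hL0.le (zero_le_one.trans (log3_ge_one hL0.le))
    linarith
  exact Real.rpow_le_rpow h6 h3 (by norm_num)

/-- the critical mean value as a number of solutions -/
theorem final (hJI : T_JI) (hJJ : T_JJg Ph) : ∀ k : ℕ, 3 ≤ k → ∃ C : ℝ, ∀ N : ℕ, 3 ≤ N →
    ((Pool.Agent.H22.VM.sols (k * (k + 1) / 2) k N).card : ℝ) ≤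
      C * (N : ℝ) ^ (k * (k + 1) / 2) *
        (Real.log N * Real.log (Real.log N)) ^ (1 / 2 : ℝ) := by
  intro k hk
  obtain ⟨C, h⟩ := hJJ k hk
  obtain ⟨A, hA, hl⟩ := loss_le
  have hKd : k * (k + 1) / 2 = KN k := rfl
  refine ⟨max C 0 * A, fun N hN => ?_⟩
  have hN0 : (0 : ℝ) < N := by
    have : 0 < N := by omega
    exact_mod_cast this
  rw [hKd, hJI (KN k) k N (by omega) (by omega)]
  refine (h N (by omega)).trans ?_
  have h3 : (3 : ℝ) ≤ N := by exact_mod_cast hN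
  have h1 := hl (Real.log N) (Real.log_le_log (by norm_num) h3)
  have hnn : 0 ≤ (1 + Ph (Real.log N)) ^ (1 / 2 : ℝ) := by
    apply Real.rpow_nonneg
    have hL : 0 ≤ Real.log N := Real.log_nonneg (by linarith)
    unfold Ph
    have := mul_nonneg hL (zero_le_one.trans (log3_ge_one hL))
    linarith
  calc C * (N : ℝ) ^ KN k * (1 + Ph (Real.log N)) ^ (1 / 2 : ℝ)
      ≤ max C 0 * (N : ℝ) ^ KN k * (1 + Ph (Real.log N)) ^ (1 / 2 : ℝ) := by
        refine mul_le_mul_of_nonneg_right ?_ hnn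
        exact mul_le_mul_of_nonneg_right (le_max_left _ _) (by positivity)
    _ ≤ max C 0 * (N : ℝ) ^ KN k *
        (A * (Real.log N * Real.log (Real.log N)) ^ (1 / 2 : ℝ)) :=
        mul_le_mul_of_nonneg_left h1 (by positivity)
    _ = max C 0 * A * (N : ℝ) ^ KN k *
        (Real.log N * Real.log (Real.log N)) ^ (1 / 2 : ℝ) := by ring

end Pool.Agent.H31.EH
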