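import Pool.Agent.H31.EH.PRD
import Pool.Agent.H31.PL.JEC

/-!
# Row PAR (MP_e21eee_nt): two blocks of a family
-/

set_option autoImplicit false

open Finset MeasureTheory

namespace Pool.Agent.H31.EH

open Pool.Agent.H24.CL Pool.Agent.H24.LV Pool.Agent.H22.LVP Pool.Agent.H26.ES

open scoped Classical

/-- Jensen for two blocks -/
theorem par_aux {k : ℕ} (Q : Finset ℕ) (V : Set (X k)) (G : Finset ℕ → ℕ → X k → ℝ) (μ Ω : ℝ)
    (hμ : 0 < μ) (hΩ : 0 < Ω) (hQ : ∀ p ∈ Q, p.Prime)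
    (hGm : ∀ S x, Measurable (G S x)) (hGb : ∀ S x w, 0 ≤ G S x w ∧ G S x w ≤ 1)
    (hVΩ : volume.real V ≤ Ω) (F : Finset (Finset ℕ)) (hF : ∀ S ∈ F, S ⊆ Q)
    (hdis : ∀ S ∈ F, ∀ S' ∈ F, S ≠ S' → Disjoint S S')
    (hmean : ∀ S ∈ F, μ * Ω ≤ (1 / (DS S : ℝ)) * ∑ x ∈ range (DS S), ∫ w in V, G S x w)
    (hbig : 8 ≤ μ ^ 2 * F.card) :
    ∃ S ∈ F, ∃ S' ∈ F, S ≠ S' ∧ μ ^ 2 / 2 * Ω ≤ (1 / (DS (S ∪ S') : ℝ)) *
      ∑ x ∈ range (DS (S ∪ S')), ∫ w in V, G S (x / DS S') w * G S' (x / DS S) w := by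
  set E : ℕ := DS Q with hE
  have hDS : ∀ S : Finset ℕ, S ⊆ Q → 0 < DS S := by
    intro S hS
    unfold DS
    exact Finset.prod_pos (fun p hp => (hQ p (hS hp)).pos)
  have hE0 : 0 < E := hDS Q (Finset.Subset.refl Q)
  have hdvd : ∀ S : Finset ℕ, S ⊆ Q → DS S ∣ E := fun S hS =>
    Finset.prod_dvd_prod_of_subset _ _ _ hS
  set g : Finset ℕ → ℕ → X k → ℝ := fun S x w => G S (x / (E / DS S)) w with hg
  have hg0 : ∀ S x w, 0 ≤ g S x w := fun S x w => (hGb S _ w).1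
  have hgν : ∀ S x w, g S x w ≤ 1 := fun S x w => (hGb S _ w).2
  have hgBM : ∀ S, BM (g S) := fun S => ⟨fun x => hGm S _, 1, fun x w => by
    rw [abs_of_nonneg (hg0 S x w)]; exact hgν S x w⟩
  have hprodBM : ∀ S S', BM (fun x w => g S x w * g S' x w) := fun S S' =>
    ⟨fun x => (hGm S _).mul (hGm S' _), 1, fun x w => by
      rw [abs_of_nonneg (mul_nonneg (hg0 S x w) (hg0 S' x w))]
      exact mul_le_one₀ (hgν S x w) (hg0 S' x w) (hgν S' x w)⟩
  -- the mass of two blocks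
  have hmassT : ∀ S ∈ F, ∀ S' ∈ F, S ≠ S' → (1 / (DS (S ∪ S') : ℝ)) *
      ∑ x ∈ range (DS (S ∪ S')), ∫ w in V, G S (x / DS S') w * G S' (x / DS S) w =
        JJ E V (fun x w => g S x w * g S' x w) := by
    intro S hS S' hS' hne
    have hU : S ∪ S' ⊆ Q := Finset.union_subset (hF S hS) (hF S' hS')
    unfold JJ
    rw [← avg_div (fun x => ∫ w in V, G S (x / DS S') w * G S' (x / DS S) w) (hDS _ hU) hE0
      (hdvd _ hU)]
    congr 1
    apply Finset.sum_congr rfl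
    intro x _
    apply integral_congr_ae
    apply Filter.Eventually.of_forall
    intro w
    have hDU : DS (S ∪ S') = DS S * DS S' := DS_un (hdis S hS S' hS' hne)
    have e1 : E / DS (S ∪ S') * DS S' = E / DS S := by
      obtain ⟨a, ha⟩ := hdvd _ hU
      have h0 := hDS _ (hF S hS)
      have h0U := hDS _ hU
      rw [ha, Nat.mul_div_cancel_left a h0U, hDU, mul_assoc, Nat.mul_div_cancel_left _ h0, mul_comm]
    have e2 : E / DS (S ∪ S') * DS S = E / DS S' := by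
      obtain ⟨a, ha⟩ := hdvd _ hU
      have h0 := hDS _ (hF S' hS')
      have h0U := hDS _ hU
      rw [ha, Nat.mul_div_cancel_left a h0U, hDU, mul_comm (DS S) (DS S'), mul_assoc,
        Nat.mul_div_cancel_left _ h0, mul_comm]
    simp only [hg]
    rw [Nat.div_div_eq_div_mul, Nat.div_div_eq_div_mul, e1, e2]
  have hgmean : ∀ S ∈ F, μ * Ω ≤ JJ E V (g S) := by
    intro S hS
    refine le_trans (hmean S hS) (le_of_eq ?_)
    unfold JJ
    rw [← avg_div (fun x => ∫ w in V, G S x w) (hDS _ (hF S hS)) hE0 (hdvd _ (hF S hS))]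
  have hn0 : (0 : ℝ) < F.card := by
    by_contra h
    have h1 : (F.card : ℝ) = 0 := le_antisymm (not_lt.1 h) (Nat.cast_nonneg _)
    rw [h1, mul_zero] at hbig
    linarith
  set s : ℝ := F.card * μ with hs
  have hs0 : 0 < s := mul_pos hn0 hμ
  set SQ : ℕ → X k → ℝ := fun x w => ∑ S ∈ F, g S x w with hSQ
  have hSQBM : BM SQ := ⟨fun x => Finset.measurable_sum _ (fun S _ => (hgBM S).1 x),
    F.card * 1, fun x w => by
      rw [abs_of_nonneg (Finset.sum_nonneg (fun S _ => hg0 S x w)), ← nsmul_eq_mul,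
        ← Finset.sum_const]
      exact Finset.sum_le_sum (fun S _ => hgν S x w)⟩
  have hSQint : s * Ω ≤ JJ E V SQ := by
    rw [hSQ, JJ_sum F g (fun S _ => hgBM S)]
    have h1 : ∑ _S ∈ F, μ * Ω ≤ ∑ S ∈ F, JJ E V (g S) := Finset.sum_le_sum hgmean
    rw [Finset.sum_const, nsmul_eq_mul] at h1
    rw [hs]; linarith
  have hpowBM : BM (fun x w => SQ x w ^ 2) := by
    obtain ⟨h1, B, h2⟩ := hSQBM
    refine ⟨fun x => (h1 x).pow_const 2, B ^ 2, fun x w => ?_⟩
    rw [abs_pow]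
    exact pow_le_pow_left₀ (abs_nonneg _) (h2 x w) 2
  have hJ : s ^ 2 * Ω ≤ JJ E V (fun x w => SQ x w ^ 2) := by
    have h1 : JJ E V (fun x w => (-(s ^ 2)) + (2 * s) * SQ x w) ≤
        JJ E V (fun x w => SQ x w ^ 2) := by
      apply JJ_mono ((BM.const _).add (hSQBM.cmul _)) hpowBM
      intro x w
      nlinarith [sq_nonneg (SQ x w - s)]
    refine le_trans ?_ h1
    rw [JJ_add (BM.const _) (hSQBM.cmul _), JJ_const hE0, JJ_cmul]
    have h3 : 0 ≤ 2 * s := by positivity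
    have h4 := mul_le_mul_of_nonneg_left hSQint h3
    have h5 : 0 ≤ s ^ 2 * (Ω - volume.real V) := mul_nonneg (sq_nonneg s) (by linarith)
    nlinarith
  -- expansion
  have hexp : JJ E V (fun x w => SQ x w ^ 2) =
      ∑ P ∈ F ×ˢ F, JJ E V (fun x w => g P.1 x w * g P.2 x w) := by
    rw [← JJ_sum (F ×ˢ F) (fun P x w => g P.1 x w * g P.2 x w) (fun P _ => hprodBM P.1 P.2)]
    congr 1
    funext x w
    rw [sq, hSQ]
    simp only
    rw [Finset.sum_mul_sum, ← Finset.sum_product']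
  have hup : ∀ S S', JJ E V (fun x w => g S x w * g S' x w) ≤ Ω := by
    intro S S'
    have h1 : JJ E V (fun x w => g S x w * g S' x w) ≤ JJ E V (fun _ _ => (1 : ℝ)) := by
      apply JJ_mono (hprodBM S S') (BM.const _)
      intro x w
      exact mul_le_one₀ (hgν S x w) (hg0 S' x w) (hgν S' x w)
    rw [JJ_const hE0, one_mul] at h1
    exact le_trans h1 hVΩ
  have hdiag : ∑ P ∈ (F ×ˢ F).filter (fun P => P.1 = P.2),
      JJ E V (fun x w => g P.1 x w * g P.2 x w) ≤ F.card * Ω := by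
    refine le_trans (Finset.sum_le_sum (fun P _ => hup P.1 P.2)) ?_
    rw [Finset.sum_const, nsmul_eq_mul]
    refine mul_le_mul_of_nonneg_right ?_ hΩ.le
    have h1 : ((F ×ˢ F).filter (fun P => P.1 = P.2)).card ≤ F.card := by
      refine Finset.card_le_card_of_injOn (fun P => P.1) ?_ ?_
      · intro P hP
        exact Finset.mem_coe.2 (Finset.mem_product.1 (Finset.mem_filter.1 (Finset.mem_coe.1 hP)).1).1
      · intro P hP P' hP' h
        have e := (Finset.mem_filter.1 (Finset.mem_coe.1 hP)).2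
        have e' := (Finset.mem_filter.1 (Finset.mem_coe.1 hP')).2
        refine Prod.ext h ?_
        rw [← e, ← e']
        exact h
    exact_mod_cast h1
  by_contra hno
  push Not at hno
  have hoff : ∑ P ∈ (F ×ˢ F).filter (fun P => ¬ P.1 = P.2),
      JJ E V (fun x w => g P.1 x w * g P.2 x w) ≤ (F.card : ℝ) ^ 2 * (μ ^ 2 / 2 * Ω) := by
    refine le_trans (Finset.sum_le_sum (g := fun _ => μ ^ 2 / 2 * Ω) (fun P hP => ?_)) ?_
    · obtain ⟨hP1, hP2⟩ := Finset.mem_filter.1 hP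
      obtain ⟨ha, hb⟩ := Finset.mem_product.1 hP1
      rw [← hmassT P.1 ha P.2 hb hP2]
      exact (hno P.1 ha P.2 hb hP2).le
    · rw [Finset.sum_const, nsmul_eq_mul]
      refine mul_le_mul_of_nonneg_right ?_ (by positivity)
      have h1 : ((F ×ˢ F).filter (fun P => ¬ P.1 = P.2)).card ≤ F.card ^ 2 := by
        refine (Finset.card_filter_le _ _).trans ?_
        rw [Finset.card_product, sq]
      exact_mod_cast h1
  have htot := Finset.sum_filter_add_sum_filter_not (F ×ˢ F) (fun P => P.1 = P.2)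
    (fun P => JJ E V (fun x w => g P.1 x w * g P.2 x w))
  rw [← hexp] at htot
  have h1 : s ^ 2 * Ω ≤ F.card * Ω + (F.card : ℝ) ^ 2 * (μ ^ 2 / 2 * Ω) := by linarith
  have h2 : (F.card : ℝ) ^ 2 * μ ^ 2 * Ω ≤ F.card * Ω + (F.card : ℝ) ^ 2 * (μ ^ 2 / 2 * Ω) := by
    have : s ^ 2 = (F.card : ℝ) ^ 2 * μ ^ 2 := by rw [hs]; ring
    rw [← this]
    exact h1
  have h3 : 8 * (F.card * Ω) ≤ (F.card : ℝ) ^ 2 * μ ^ 2 * Ω := by
    have h4 := mul_le_mul_of_nonneg_right hbig (mul_pos hn0 hΩ).le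
    calc 8 * (F.card * Ω) ≤ μ ^ 2 * F.card * (F.card * Ω) := h4
      _ = (F.card : ℝ) ^ 2 * μ ^ 2 * Ω := by ring
  have h5 : 0 < F.card * Ω := mul_pos hn0 hΩ
  linarith

theorem pf_PAR (hPRD : T_PRD) : T_PAR := by
  intro k Q V Ge Gd P m τ Ω kap μ hD hμ F hF hdis hbig
  obtain ⟨G, hGm, hGb, hG1, hG2⟩ := hPRD k Q V Ge Gd P m τ Ω kap hD.dat
  have hF1 : ∀ S ∈ F, S ⊆ Q := fun S hS => (hF S hS).1
  obtain ⟨S, hS, S', hS', hne, h⟩ := par_aux Q V G μ Ω hμ hD.pos
    (fun p hp => (hD.dat.pr p hp).1) hGm hGb hD.mOm F hF1 hdis (by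
      intro S hS
      refine le_trans (hF S hS).2 (le_of_eq ?_)
      unfold mass
      rw [mul_left_comm, Finset.mul_sum]
      congr 1
      apply Finset.sum_congr rfl
      intro x hx
      exact hG1 S (hF1 S hS) x (Finset.mem_range.mp hx)) hbig
  have e : mass k (DS (S ∪ S')) (fun b x => Two S S' V Gd kap b x) = (1 / (DS (S ∪ S') : ℝ)) *
      ∑ x ∈ range (DS (S ∪ S')), ∫ w in V, G S (x / DS S') w * G S' (x / DS S) w := by
    unfold mass
    rw [mul_left_comm, Finset.mul_sum]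
    congr 1
    apply Finset.sum_congr rfl
    intro x hx
    exact hG2 S (hF1 S hS) S' (hF1 S' hS') (hdis S hS S' hS' hne) x (Finset.mem_range.mp hx)
  exact ⟨S, hS, S', hS', hne, le_trans h (le_of_eq e.symm)⟩

end Pool.Agent.H31.EH
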