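import Pool.Agent.H31.EH.Defs

/-!
# The critical mean value, exponent one half: targets (helper31)

Page: H31_E21_HALF.md (team store). Every `T_X` is a proposition to be proved in a module of its
own.
-/

set_option autoImplicit false

open Finset MeasureTheory

namespace Pool.Agent.H31.EH

open Pool.Agent.H24.CL Pool.Agent.H24.LV Pool.Agent.H26.ES

/-! ## 1. Structure -/

/-- STU: uniqueness and invariance of the stars. -/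
def T_STU : Prop :=
  ∀ (k : ℕ) (S : Finset ℕ) (V : Set (X k)) (Ge : ℕ → Set (X k)) (Gd : ℕ → ℕ → Set (X k))
    (P m τ Ω : ℝ), SDatP k S V Ge Gd P m τ Ω →
    (∀ x < DS S, ∀ b b' : X k, StarP S V Gd b x → StarP S V Gd b' x →
      phi (DS S) x b = phi (DS S) x b' → b - b' ∈ H k (DS S) 1) ∧
    (∀ (x : ℕ) (b : X k), ∀ h ∈ H k (DS S) 1, StarP S V Gd b x → StarP S V Gd (b + h) x) ∧
    (∀ b : X k, ∀ h ∈ H k (DS S) 1, den S V Gd (b + h) = den S V Gd b) ∧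
    (∀ (kap : ℝ) (x : ℕ) (b : X k), ∀ h ∈ H k (DS S) 1, Good S V Gd kap b x →
      Good S V Gd kap (b + h) x)

/-- COL: the two halves of a star; directions over a column. -/
def T_COL : Prop :=
  ∀ (k : ℕ) (S₁ S₂ : Finset ℕ) (V : Set (X k)) (Ge : ℕ → Set (X k)) (Gd : ℕ → ℕ → Set (X k))
    (P m τ Ω : ℝ), Disjoint S₁ S₂ → SDatP k (S₁ ∪ S₂) V Ge Gd P m τ Ω →
    (∀ (x : ℕ) (b : X k), StarP (S₁ ∪ S₂) V Gd b x ↔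
      StarP S₁ V Gd (phi (DS S₂) (x % DS S₂) b) (x / DS S₂) ∧
      StarP S₂ V Gd (phi (DS S₁) (x % DS S₁) b) (x / DS S₁)) ∧
    (∀ y < DS S₁, ∀ z < DS S₂, ∀ b : X k, ∀ κ ∈ Kr k (DS S₁) y, ∀ κ' ∈ Kr k (DS S₁) y,
      StarP (S₁ ∪ S₂) V Gd (b + κ) (y + DS S₁ * z) →
      StarP (S₁ ∪ S₂) V Gd (b + κ') (y + DS S₁ * z) → κ - κ' ∈ H k (DS S₁) 1) ∧
    (∀ (x : ℕ) (b : X k), ∀ h ∈ H k (DS S₁) 1, StarP (S₁ ∪ S₂) V Gd b x →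
      StarP (S₁ ∪ S₂) V Gd (b + h) x) ∧
    (∀ (kap : ℝ) (x : ℕ) (b : X k), ∀ h ∈ H k (DS S₁) 1, Two S₁ S₂ V Gd kap b x →
      Two S₁ S₂ V Gd kap (b + h) x)

/-- MEA: measurability and bounds. -/
def T_MEA : Prop :=
  ∀ (k : ℕ) (S₁ S₂ : Finset ℕ) (V : Set (X k)) (Ge : ℕ → Set (X k)) (Gd : ℕ → ℕ → Set (X k))
    (P m τ Ω : ℝ), SDatP k (S₁ ∪ S₂) V Ge Gd P m τ Ω →
    (∀ x, MeasurableSet {b : X k | StarP S₁ V Gd b x}) ∧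
    (Measurable fun b : X k => den S₁ V Gd b) ∧
    (∀ kap x, MeasurableSet {b : X k | Good S₁ V Gd kap b x}) ∧
    (∀ kap x, MeasurableSet {b : X k | Two S₁ S₂ V Gd kap b x}) ∧
    (∀ kap kap' x, MeasurableSet {b : X k | Light S₁ S₂ V Gd kap kap' b x}) ∧
    (∀ y, Measurable fun b : X k => DP S₁ S₂ V Gd b y) ∧
    (∀ y, Measurable fun b : X k => od S₁ S₂ V Gd b y) ∧
    (∀ y, Measurable fun b : X k => sd S₁ S₂ V Gd b y) ∧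
    (∀ b : X k, 0 ≤ den S₁ V Gd b ∧ den S₁ V Gd b ≤ 1) ∧
    (∀ (b : X k) y, 0 ≤ DP S₁ S₂ V Gd b y ∧ DP S₁ S₂ V Gd b y ≤ (DS S₂ : ℝ) ^ 2) ∧
    (∀ (b : X k) y, 0 ≤ od S₁ S₂ V Gd b y ∧ od S₁ S₂ V Gd b y ≤ 1) ∧
    (∀ (b : X k) y, 0 ≤ sd S₁ S₂ V Gd b y ∧ sd S₁ S₂ V Gd b y ≤ 1)

/-- MAS: the mass of the stars, of the grids with many stars, and projections. -/
def T_MAS : Prop :=
  ∀ (k : ℕ) (Q : Finset ℕ) (V : Set (X k)) (Ge : ℕ → Set (X k)) (Gd : ℕ → ℕ → Set (X k))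
    (P m τ Ω : ℝ), Dat k Q V Ge Gd P m τ Ω → ∀ S ⊆ Q,
    mass k (DS S) (fun b x => StarP S V Gd b x) ≤ Ω ∧
    (∀ kap : ℝ, 0 < kap →
      (DS S : ℝ) ^ (KN k - k) * volume.real {c : X k | kap ≤ den S V Gd c} ≤ Ω / kap) ∧
    (∀ S' ⊆ S, ∀ T : X k → ℕ → Prop, (∀ x, MeasurableSet {b : X k | T b x}) →
      mass k (DS S) (fun b x => StarP S V Gd b x ∧
        T (phi (DS S / DS S') (x % (DS S / DS S')) b) (x / (DS S / DS S'))) ≤ mass k (DS S') T)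

/-! ## 2. Pairs of stars of different directions -/

/-- PMI: the mass of the pairs as an integral over the stars. -/
def T_PMI : Prop :=
  ∀ (k : ℕ) (S₁ S₂ : Finset ℕ) (V : Set (X k)) (Ge : ℕ → Set (X k)) (Gd : ℕ → ℕ → Set (X k))
    (P m τ Ω : ℝ), Disjoint S₁ S₂ → SDatP k (S₁ ∪ S₂) V Ge Gd P m τ Ω →
    PM k S₁ S₂ V Gd = (DS (S₁ ∪ S₂) : ℝ) ^ (KN k - k) * ((1 / (DS (S₁ ∪ S₂) : ℝ)) *
      ∑ x ∈ range (DS (S₁ ∪ S₂)), ∫ b in {b : X k | StarP (S₁ ∪ S₂) V Gd b x},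
        od S₁ S₂ V Gd b (x % DS S₁))

/-- PMS: a direction is different if and only if it is different for one prime. -/
def T_PMS : Prop :=
  ∀ (k : ℕ) (S₁ S₂ : Finset ℕ) (V : Set (X k)) (Ge : ℕ → Set (X k)) (Gd : ℕ → ℕ → Set (X k))
    (P m τ Ω : ℝ), Disjoint S₁ S₂ → SDatP k (S₁ ∪ S₂) V Ge Gd P m τ Ω →
    PM k S₁ S₂ V Gd ≤ ∑ p ∈ S₁, PM k {p} S₂ V Gd

/-- PMB: one prime against one prime: the pair lemma. -/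
def T_PMB : Prop :=
  ∀ k : ℕ, 3 ≤ k → ∃ C : ℝ, 1 ≤ C ∧ ∀ (Q : Finset ℕ) (V : Set (X k)) (Ge : ℕ → Set (X k))
    (Gd : ℕ → ℕ → Set (X k)) (P m τ Ω kap : ℝ), SDatP k Q V Ge Gd P m τ Ω → 0 < kap → kap ≤ 1 →
    ∀ p ∈ Q, ∀ q ∈ Q, p ≠ q →
      PM k {p} {q} V Gd ≤ (C * m ^ 3 / (kap ^ 3 * P) + kap ^ 2) * Ω

/-- XCO: the good `p`-lines of other directions which cross a grid. -/
def T_XCO : Prop :=
  ∀ (k p D : ℕ) (G₀ : Set (X k)) (G : ℕ → Set (X k)) (m : ℝ), 1 ≤ k → p.Prime → k < p → 1 ≤ D →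
    D.Coprime p → 1 ≤ m → CntM (H k p k) (H k p 1) G₀ m → (∀ y, G y ⊆ G₀) → ∀ (b : X k)
    (B : Finset ℕ), B ⊆ range (p * D) → (∀ x ∈ B, ∃ κ ∈ Kr k p (x % p), κ ∉ H k p 1 ∧
      phi D (x % D) (b + κ) ∈ G (x / D)) → (B.card : ℝ) ≤ k * m * D

/-- TT1: stars on `p`-lines with few stars. -/
def T_TT1 : Prop :=
  ∀ (k p : ℕ) (S : Finset ℕ) (V : Set (X k)) (Ge : ℕ → Set (X k)) (Gd : ℕ → ℕ → Set (X k))
    (P m τ Ω kap : ℝ), p ∉ S → SDatP k (S ∪ {p}) V Ge Gd P m τ Ω → 0 < kap →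
    mass k (DS (S ∪ {p})) (fun b x => StarP (S ∪ {p}) V Gd b x ∧
      od S {p} V Gd b (x % DS S) < kap ∧ sd S {p} V Gd b (x % DS S) < kap) ≤ 2 * kap * Ω

/-- TT2: stars on the grid which contains most stars of their `p`-line. -/
def T_TT2 : Prop :=
  ∀ (k p : ℕ) (S : Finset ℕ) (V : Set (X k)) (Ge : ℕ → Set (X k)) (Gd : ℕ → ℕ → Set (X k))
    (P m τ Ω kap : ℝ), p ∉ S → SDatP k (S ∪ {p}) V Ge Gd P m τ Ω →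
    CntM (H k p k) (H k p 1) (Ge p) m → 0 < kap →
    (DS (S ∪ {p}) : ℝ) ^ (KN k - k) * ((1 / (DS (S ∪ {p}) : ℝ)) *
      ∑ x ∈ range (DS (S ∪ {p})), ∫ b in {b : X k | StarP (S ∪ {p}) V Gd b x ∧
        od S {p} V Gd b (x % DS S) < kap ∧ kap ≤ sd S {p} V Gd b (x % DS S)},
          od {p} S V Gd b (x % DS {p})) ≤ k * m / P * Ω

/-- TTS: one prime against a block. -/
def T_TTS : Prop :=
  ∀ (k p : ℕ) (S : Finset ℕ) (V : Set (X k)) (Ge : ℕ → Set (X k)) (Gd : ℕ → ℕ → Set (X k))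
    (P m τ Ω kap : ℝ), p ∉ S → SDatP k (S ∪ {p}) V Ge Gd P m τ Ω →
    CntM (H k p k) (H k p 1) (Ge p) m → 0 < kap →
    PM k {p} S V Gd ≤ PM k S {p} V Gd / kap + (2 * kap + k * m / P) * Ω

/-- PMT: the mass of the pairs of different directions. -/
def T_PMT : Prop :=
  ∀ k : ℕ, 3 ≤ k → ∃ C : ℝ, 1 ≤ C ∧ ∀ (Q : Finset ℕ) (V : Set (X k)) (Ge : ℕ → Set (X k))
    (Gd : ℕ → ℕ → Set (X k)) (P m τ Ω kap kap' : ℝ), Dat k Q V Ge Gd P m τ Ω → 0 < kap →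
    kap ≤ 1 → 0 < kap' → ∀ S₁ ⊆ Q, ∀ S₂ ⊆ Q, Disjoint S₁ S₂ →
    PM k S₁ S₂ V Gd ≤ S₁.card * (S₂.card * (C * m ^ 3 / (kap ^ 3 * P) + kap ^ 2) / kap' +
      2 * kap' + k * m / P) * Ω

/-! ## 3. Doubling -/

/-- LON: stars in light columns. -/
def T_LON : Prop :=
  ∀ (k : ℕ) (Q : Finset ℕ) (V : Set (X k)) (Ge : ℕ → Set (X k)) (Gd : ℕ → ℕ → Set (X k))
    (P m τ Ω kap kap' : ℝ), Dat k Q V Ge Gd P m τ Ω → 0 < kap → 0 < kap' →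
    ∀ S₁ ⊆ Q, ∀ S₂ ⊆ Q, Disjoint S₁ S₂ →
    mass k (DS (S₁ ∪ S₂)) (fun b x => Light S₁ S₂ V Gd kap kap' b x) ≤
      2 * kap' / kap * Ω + PM k S₁ S₂ V Gd / kap'

/-- FIN: a set of cells without light rows and columns is dense. -/
def T_FIN : Prop :=
  ∀ (D₁ D₂ : ℕ) (T : Finset ℕ) (kap : ℝ), 1 ≤ D₁ → 1 ≤ D₂ → D₁.Coprime D₂ →
    T ⊆ range (D₁ * D₂) → 0 < kap → (T.card : ℝ) ≤ kap ^ 2 / 2 * (D₁ * D₂) →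
    (T.card : ℝ) ≤ 2 * (((T.filter fun x =>
        ((T.filter fun x' => x' % D₁ = x % D₁).card : ℝ) < kap * D₂).card : ℝ) +
      ((T.filter fun x =>
        ((T.filter fun x' => x' % D₂ = x % D₂).card : ℝ) < kap * D₁).card : ℝ))

/-- SPA: stars with good halves on grids with few stars. -/
def T_SPA : Prop :=
  ∀ (k : ℕ) (S₁ S₂ : Finset ℕ) (V : Set (X k)) (Ge : ℕ → Set (X k)) (Gd : ℕ → ℕ → Set (X k))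
    (P m τ Ω kap kap' : ℝ), Disjoint S₁ S₂ → SDatP k (S₁ ∪ S₂) V Ge Gd P m τ Ω → 0 < kap' →
    mass k (DS (S₁ ∪ S₂)) (fun b x => Two S₁ S₂ V Gd kap b x ∧
        den (S₁ ∪ S₂) V Gd b < kap' ^ 2 / 2) ≤
      2 * (mass k (DS (S₁ ∪ S₂)) (fun b x => Light S₁ S₂ V Gd kap kap' b x) +
        mass k (DS (S₂ ∪ S₁)) (fun b x => Light S₂ S₁ V Gd kap kap' b x))

/-- DBL: the stars with good halves are good except for a small mass. -/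
def T_DBL : Prop :=
  ∀ (k : ℕ) (Q : Finset ℕ) (V : Set (X k)) (Ge : ℕ → Set (X k)) (Gd : ℕ → ℕ → Set (X k))
    (P m τ Ω kap kap' E : ℝ), Dat k Q V Ge Gd P m τ Ω → 0 < kap → 0 < kap' →
    ∀ S₁ ⊆ Q, ∀ S₂ ⊆ Q, Disjoint S₁ S₂ →
    (∀ S₁' ⊆ S₁, ∀ S₂' ⊆ S₂, PM k S₁' S₂' V Gd ≤ E ∧ PM k S₂' S₁' V Gd ≤ E) →
    mass k (DS (S₁ ∪ S₂)) (fun b x => Two S₁ S₂ V Gd kap b x) ≤
      mass k (DS (S₁ ∪ S₂)) (fun b x => Good (S₁ ∪ S₂) V Gd (kap' ^ 2 / 2) b x) +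
      2 ^ (S₁.card + S₂.card) * (8 * kap' / kap * Ω + 4 * E / kap')

/-- PRD: the masses as integrals over the points. -/
def T_PRD : Prop :=
  ∀ (k : ℕ) (Q : Finset ℕ) (V : Set (X k)) (Ge : ℕ → Set (X k)) (Gd : ℕ → ℕ → Set (X k))
    (P m τ Ω kap : ℝ), SDatP k Q V Ge Gd P m τ Ω →
    ∃ G : Finset ℕ → ℕ → X k → ℝ, (∀ S x, Measurable (G S x)) ∧
      (∀ S x w, 0 ≤ G S x w ∧ G S x w ≤ 1) ∧
      (∀ S ⊆ Q, ∀ x < DS S, (DS S : ℝ) ^ (KN k - k) *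
        volume.real {b : X k | Good S V Gd kap b x} = ∫ w in V, G S x w) ∧
      (∀ S₁ ⊆ Q, ∀ S₂ ⊆ Q, Disjoint S₁ S₂ → ∀ x < DS (S₁ ∪ S₂),
        (DS (S₁ ∪ S₂) : ℝ) ^ (KN k - k) *
          volume.real {b : X k | Two S₁ S₂ V Gd kap b x} =
            ∫ w in V, G S₁ (x / DS S₂) w * G S₂ (x / DS S₁) w)

/-- PAR: two blocks of a family. -/
def T_PAR : Prop :=
  ∀ (k : ℕ) (Q : Finset ℕ) (V : Set (X k)) (Ge : ℕ → Set (X k)) (Gd : ℕ → ℕ → Set (X k))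
    (P m τ Ω kap μ : ℝ), Dat k Q V Ge Gd P m τ Ω → 0 < μ → ∀ F : Finset (Finset ℕ),
    (∀ S ∈ F, S ⊆ Q ∧ μ * Ω ≤ mass k (DS S) (fun b x => Good S V Gd kap b x)) →
    (∀ S ∈ F, ∀ S' ∈ F, S ≠ S' → Disjoint S S') → 8 ≤ μ ^ 2 * F.card →
    ∃ S ∈ F, ∃ S' ∈ F, S ≠ S' ∧
      μ ^ 2 / 2 * Ω ≤ mass k (DS (S ∪ S')) (fun b x => Two S S' V Gd kap b x)

/-- STA: one doubling of a family. -/
def T_STA : Prop :=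
  ∀ (k : ℕ) (Q : Finset ℕ) (V : Set (X k)) (Ge : ℕ → Set (X k)) (Gd : ℕ → ℕ → Set (X k))
    (P m τ Ω kap kap' μ R E : ℝ) (n : ℕ), Dat k Q V Ge Gd P m τ Ω → 0 < kap → 0 < kap' →
    0 < μ → 1 ≤ n →
    (∀ S₁ ⊆ Q, ∀ S₂ ⊆ Q, Disjoint S₁ S₂ → S₁.card ≤ n → S₂.card ≤ n → PM k S₁ S₂ V Gd ≤ E) →
    2 ^ (2 * n) * (8 * kap' / kap * Ω + 4 * E / kap') ≤ μ ^ 2 / 4 * Ω → 16 / μ ^ 2 ≤ R →
    Fam k Q V Gd Ω n kap μ R → Fam k Q V Gd Ω (2 * n) (kap' ^ 2 / 2) (μ ^ 2 / 4) (R / 8)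

/-- BAS: the family of the single primes. -/
def T_BAS : Prop :=
  ∀ (k : ℕ) (Q : Finset ℕ) (V : Set (X k)) (Ge : ℕ → Set (X k)) (Gd : ℕ → ℕ → Set (X k))
    (P m τ Ω ρ : ℝ), Dat k Q V Ge Gd P m τ Ω → 0 < ρ → ρ ≤ 1 →
    (∀ p ∈ Q, ρ * Ω ≤ (p : ℝ) ^ (KN k - k) * ((1 / (p : ℝ)) * ∑ y ∈ range p,
      volume.real {a : X k | a ∈ Gd p y ∧ phi p y a ∈ V})) →
    Fam k Q V Gd Ω 1 (ρ / 2) (ρ / 2) Q.card

/-- ITE: the iteration. -/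
def T_ITE : Prop :=
  ∀ k : ℕ, 3 ≤ k → ∃ A : ℝ, 1 ≤ A ∧ ∀ (Q : Finset ℕ) (V : Set (X k)) (Ge : ℕ → Set (X k))
    (Gd : ℕ → ℕ → Set (X k)) (P m τ Ω ρ : ℝ) (h : ℕ), Dat k Q V Ge Gd P m τ Ω → 0 < ρ →
    ρ ≤ 1 → m ^ 3 ≤ P ^ (1 / 2 : ℝ) →
    (∀ p ∈ Q, ρ * Ω ≤ (p : ℝ) ^ (KN k - k) * ((1 / (p : ℝ)) * ∑ y ∈ range p,
      volume.real {a : X k | a ∈ Gd p y ∧ phi p y a ∈ V})) →
    Real.exp (A * 2 ^ h * (h + 1) * (1 + Real.log (1 / ρ))) ≤ P ^ (1 / 12 : ℝ) →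
    Real.exp (A * 2 ^ h * (1 + Real.log (1 / ρ))) ≤ Q.card →
    ∃ S ⊆ Q, S.card = 2 ^ h ∧ Real.exp (-(A * 2 ^ h * (1 + Real.log (1 / ρ)))) * Ω ≤
      mass k (DS S) (fun b x =>
        Good S V Gd (Real.exp (-(A * 2 ^ h * (h + 1) * (1 + Real.log (1 / ρ))))) b x)

/-! ## 4. Result -/

/-- SRH: if there are many alive points, then many alive points lie on long dense lines. -/
def T_SRH : Prop :=
  ∀ k : ℕ, 3 ≤ k → ∀ C₃ ε : ℝ, 1 ≤ C₃ → 0 < ε → ε ≤ 1 → ∃ c₀ x₀ : ℝ, 0 < c₀ ∧ 1 ≤ x₀ ∧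
    ∀ (M x H : ℝ) (N₁ : ℕ), 2 ≤ M → x₀ ≤ x → x ≤ Real.log M → 0 ≤ H →
    H + 1 ≤ c₀ * x ^ 2 / (Real.log M * Lam M) → M * Real.exp x ≤ N₁ →
    (N₁ : ℝ) ≤ M * Real.exp (2 * x) →
    M ^ (KN k) * Real.exp (-H) ≤ (N₁ : ℝ) ^ (KN k) *
      volume.real {a : X k | M ^ (-(1 / 2 : ℝ)) ≤ ‖u N₁ a‖} →
    ∃ (N₀ : ℕ) (S : Finset ℕ), M * Real.exp (x / 2) ≤ N₀ ∧ N₀ ≤ N₁ ∧ (∀ p ∈ S, p.Prime) ∧
      M ^ C₃ ≤ (DS S : ℝ) ∧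
      M ^ (KN k) * Real.exp (-ε * x) ≤ (N₀ : ℝ) ^ (KN k) * volume.real {w : X k | ∃ (b : X k)
        (x' : ℕ), x' < DS S ∧ phi (DS S) x' b = w ∧
        Rich S {v : X k | M ^ (-(1 / 2 : ℝ)) / 8 ≤ ‖u N₀ v‖} (Real.exp (-ε * x)) b x'}

end Pool.Agent.H31.EH
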