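import Pool.Agent.H79.PL.Star
import Pool.Agent.H79.EST.All
import Pool.Agent.H79.HF.See
import Pool.Agent.H79.HF.Fi
import Pool.Agent.H79.HF.Jj
import Pool.Agent.H79.EH.End
import Pool.Agent.H31.EH.Fin
import Pool.Agent.H31.EH.PAR
import Pool.Agent.H36.EH.PMI
import Pool.Agent.H37.EH.PMT
import Pool.Agent.H37.EH.TTS
import Pool.Agent.H38.EH.ITE
import Pool.Agent.H39.EH.TT2
import Pool.Agent.H52.EH.XCO
import Pool.Agent.H40.EHF.TT1
import Pool.Agent.H40.EHF.BAS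
import Pool.Agent.H36.EH.PMS
import Pool.Agent.H62.EH.LON
import Pool.Agent.H85.EH.DBL
import Pool.Agent.H85.EH.PMB
import Pool.Agent.H41.EH.FIN
import Pool.Agent.H41.EH.STA
import Pool.Agent.H42.EH.MAS
import Pool.Agent.H45.EH.MEA
import Pool.Agent.H53.EH.SPA
import Pool.Agent.H91.EHF.STU
import Pool.Agent.H92.EH.COL

/-!
# The critical mean value, exponent one half: the closed theorems (helper31)
-/

set_option autoImplicit false

namespace Pool.Agent.H31.EH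

open Pool.Agent.H24.LVP Pool.Agent.H24.CL Pool.Agent.H79.PL

theorem hSTU : T_STU := Pool.Agent.H91.EHF.pf_STU aCO

theorem hCOL : T_COL := Pool.Agent.H92.EH.pf_COL aCO aCT hSTU

theorem hMEA : T_MEA := Pool.Agent.H45.EH.pf_MEA rMP

theorem hMAS : T_MAS := Pool.Agent.H42.EH.pf_MAS rMP aCO sTRP hMEA

theorem hPMI : T_PMI := Pool.Agent.H36.EH.pf_PMI rMP aCO aAI hCOL hMEA

theorem hTT1 : T_TT1 := Pool.Agent.H40.EHF.pf_TT1 aCO aAI hCOL hMEA

theorem hFIN : T_FIN := Pool.Agent.H41.EH.pf_FIN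

theorem hSPA : T_SPA := Pool.Agent.H53.EH.pf_SPA rMP hCOL hMEA hFIN

theorem hPRD : T_PRD := pf_PRD aSC aCO aCT hCOL hMEA hSTU

theorem hPAR : T_PAR := pf_PAR hPRD

theorem hLON : T_LON := Pool.Agent.H62.EH.pf_LON rMP aCO aAI hCOL hMEA hMAS

theorem hDBL : T_DBL := Pool.Agent.H85.EH.pf_DBL rMP aCO hCOL hMEA hMAS hLON hSPA

theorem hSTA : T_STA := Pool.Agent.H41.EH.pf_STA hPAR hDBL hMEA

theorem hBAS : T_BAS := Pool.Agent.H40.EHF.pf_BAS hMEA

theorem hPMB : T_PMB := Pool.Agent.H85.EH.pf_PMB rMP aCO sPLP hCOL hMEA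

theorem hPMS : T_PMS := Pool.Agent.H36.EH.pf_PMS rMP aCO aCT hCOL hMEA

theorem hXCO : T_XCO := Pool.Agent.H52.EH.pf_XCO rTO rSH aCO

theorem hTT2 : T_TT2 := Pool.Agent.H39.EH.pf_TT2 rMP aCO aAI hCOL hMEA hXCO

theorem hTTS : T_TTS := Pool.Agent.H37.EH.pf_TTS hPMI hTT1 hTT2 hMEA hCOL

theorem hPMT : T_PMT := Pool.Agent.H37.EH.pf_PMT hPMS hPMB hTTS

theorem hITE : T_ITE := Pool.Agent.H38.EH.pf_ITE hPMT hSTA hBAS

/-- the critical mean value -/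
theorem hJJ : Pool.Agent.H79.HF.T_JJg Ph := Pool.Agent.H79.EH.jj_final hITE

/-- the critical mean value as a number of solutions -/
theorem closed : ∀ k : ℕ, 3 ≤ k → ∃ C : ℝ, ∀ N : ℕ, 3 ≤ N →
    ((Pool.Agent.H22.VM.sols (k * (k + 1) / 2) k N).card : ℝ) ≤
      C * (N : ℝ) ^ (k * (k + 1) / 2) *
        (Real.log N * Real.log (Real.log N)) ^ (1 / 2 : ℝ) :=
  final rJI hJJ

end Pool.Agent.H31.EH
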