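import Pool.Agent.H26.ES.TargetsF

/-!
# The critical mean value, exponent one half: definitions (helper31)

Page: H31_E21_HALF.md (team store). Blocks of primes are doubled: two blocks of stars with many
stars on their grids are merged, lonely rows and columns are rare.
-/

set_option autoImplicit false

open Finset MeasureTheory

namespace Pool.Agent.H31.EH

open Pool.Agent.H24.CL Pool.Agent.H24.LV Pool.Agent.H26.ES

/-- Data: the stars of `H26/ES` and the measure of `V`. -/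
structure Dat (k : ℕ) (Q : Finset ℕ) (V : Set (X k)) (Ge : ℕ → Set (X k))
    (Gd : ℕ → ℕ → Set (X k)) (P m τ Ω : ℝ) : Prop where
  dat : SDatP k Q V Ge Gd P m τ Ω
  mOm : volume.real V ≤ Ω
  pos : 0 < Ω
  fib : ∀ p ∈ Q, CntM (H k p k) (H k p 1) (Ge p) m

open Classical in
/-- the density of the stars on the grid `c` -/
noncomputable def den {k : ℕ} (S : Finset ℕ) (V : Set (X k)) (Gd : ℕ → ℕ → Set (X k)) (c : X k) :
    ℝ :=
  (((range (DS S)).filter fun x => StarP S V Gd c x).card : ℝ) / DS S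

/-- a star such that the grids of all its sub-stars have many stars -/
def Good {k : ℕ} (S : Finset ℕ) (V : Set (X k)) (Gd : ℕ → ℕ → Set (X k)) (kap : ℝ) (b : X k)
    (x : ℕ) : Prop :=
  StarP S V Gd b x ∧ ∀ S' ⊆ S, kap ≤ den S' V Gd (phi (DS S / DS S') (x % (DS S / DS S')) b)

/-- a star over `S₁ ∪ S₂` both halves of which are good -/
def Two {k : ℕ} (S₁ S₂ : Finset ℕ) (V : Set (X k)) (Gd : ℕ → ℕ → Set (X k)) (kap : ℝ) (b : X k)
    (x : ℕ) : Prop :=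
  Good S₁ V Gd kap (phi (DS S₂) (x % DS S₂) b) (x / DS S₂) ∧
    Good S₂ V Gd kap (phi (DS S₁) (x % DS S₁) b) (x / DS S₁)

open Classical in
/-- the number of the pairs `(z, z')` of positions on the `DS S₂`-grid `phi (DS S₁) y b` which
carry stars over `S₁ ∪ S₂` of two different directions (modulo `H k (DS S₁) 1`) -/
noncomputable def DP {k : ℕ} (S₁ S₂ : Finset ℕ) (V : Set (X k)) (Gd : ℕ → ℕ → Set (X k)) (b : X k)
    (y : ℕ) : ℝ :=
  (((range (DS S₂) ×ˢ range (DS S₂)).filter fun z => ∃ κ ∈ Kr k (DS S₁) y, ∃ κ' ∈ Kr k (DS S₁) y,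
    κ - κ' ∉ H k (DS S₁) 1 ∧ StarP (S₁ ∪ S₂) V Gd (b + κ) (y + DS S₁ * z.1) ∧
    StarP (S₁ ∪ S₂) V Gd (b + κ') (y + DS S₁ * z.2)).card : ℝ)

/-- the mass of these pairs -/
noncomputable def PM (k : ℕ) (S₁ S₂ : Finset ℕ) (V : Set (X k)) (Gd : ℕ → ℕ → Set (X k)) : ℝ :=
  (DS S₂ : ℝ) ^ (KN k - k) * ((1 / (DS S₁ : ℝ)) * ∑ y ∈ range (DS S₁),
    ∫ b : X k, DP S₁ S₂ V Gd b y / (DS S₂ : ℝ) ^ 2)

open Classical in
/-- the density of the positions on the `DS S₂`-grid `phi (DS S₁) y b` with a star over `S₁ ∪ S₂`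
of a direction different from `b` -/
noncomputable def od {k : ℕ} (S₁ S₂ : Finset ℕ) (V : Set (X k)) (Gd : ℕ → ℕ → Set (X k)) (b : X k)
    (y : ℕ) : ℝ :=
  (((range (DS S₂)).filter fun z => ∃ κ ∈ Kr k (DS S₁) y, κ ∉ H k (DS S₁) 1 ∧
    StarP (S₁ ∪ S₂) V Gd (b + κ) (y + DS S₁ * z)).card : ℝ) / DS S₂

open Classical in
/-- the density of the positions on the `DS S₂`-grid `phi (DS S₁) y b` with a star over `S₁ ∪ S₂`
of the direction `b` -/
noncomputable def sd {k : ℕ} (S₁ S₂ : Finset ℕ) (V : Set (X k)) (Gd : ℕ → ℕ → Set (X k)) (b : X k)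
    (y : ℕ) : ℝ :=
  (((range (DS S₂)).filter fun z => StarP (S₁ ∪ S₂) V Gd b (y + DS S₁ * z)).card : ℝ) / DS S₂

open Classical in
/-- a star over `S₁ ∪ S₂` with good halves in a light column -/
def Light {k : ℕ} (S₁ S₂ : Finset ℕ) (V : Set (X k)) (Gd : ℕ → ℕ → Set (X k)) (kap kap' : ℝ)
    (b : X k) (x : ℕ) : Prop :=
  Two S₁ S₂ V Gd kap b x ∧
    (((range (DS S₂)).filter fun z => Two S₁ S₂ V Gd kap b (x % DS S₁ + DS S₁ * z)).card : ℝ) <
      kap' * DS S₂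

/-- a family of `R` disjoint blocks of `m` primes with many good stars -/
def Fam (k : ℕ) (Q : Finset ℕ) (V : Set (X k)) (Gd : ℕ → ℕ → Set (X k)) (Ω : ℝ) (m : ℕ)
    (kap μ R : ℝ) : Prop :=
  ∃ F : Finset (Finset ℕ), R ≤ (F.card : ℝ) ∧ (∀ S ∈ F, S ⊆ Q ∧ S.card = m ∧
    μ * Ω ≤ mass k (DS S) (fun b x => Good S V Gd kap b x)) ∧
    ∀ S ∈ F, ∀ S' ∈ F, S ≠ S' → Disjoint S S'

/-- the logarithmic factor -/
noncomputable def Lam (M : ℝ) : ℝ := Real.log (3 + Real.log M)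

end Pool.Agent.H31.EH
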