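import Pool.Agent.H31.EH.Targets
import Pool.Agent.H31.ES.STP
import Pool.Agent.H31.EST.RIP

/-!
# Row PRD (MP_e21eee_nt): the masses as integrals over the points
-/

set_option autoImplicit false

open Finset MeasureTheory

namespace Pool.Agent.H31.EH

open Pool.Agent.H24.CL Pool.Agent.H24.LV Pool.Agent.H56.LVP Pool.Agent.H26.ES

/-- at most one class modulo `H k D 1` over every cell: at most `D ^ k` elements -/
theorem nn_le_cls {k D x : ℕ} (hD : 1 ≤ D) (hCO : L_CO) {A : Set (X k)}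
    (hU : ∀ a ∈ A, ∀ a' ∈ A, phi D x a = phi D x a' → a - a' ∈ H k D 1) (c : X k) :
    nn k D x A c ≤ (D : ℝ) ^ k := by
  classical
  obtain ⟨-, hker⟩ := hCO.2.2.2.1 k D x hD
  set Z : Finset (X k) := (Kr k D x).filter fun κ => c + κ ∈ A with hZ
  have hnn : nn k D x A c = (Z.card : ℝ) := by
    unfold nn
    rw [Finset.sum_ite, Finset.sum_const_zero, add_zero, Finset.sum_const, nsmul_eq_mul, mul_one]
  rw [hnn]
  rcases Z.eq_empty_or_nonempty with h0 | ⟨z0, hz0⟩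
  · rw [h0, Finset.card_empty, Nat.cast_zero]
    positivity
  · have hHF : (HF k D 1).card = D ^ (1 * k) := (rTO k D hD).2.2.1 1
    rw [one_mul] at hHF
    have h1 : Z.card ≤ (HF k D 1).card := by
      refine Finset.card_le_card_of_injOn (fun z => z - z0) ?_ ?_
      · intro z hz
        rw [Finset.mem_coe, hZ, Finset.mem_filter] at hz
        rw [hZ, Finset.mem_filter] at hz0
        refine Finset.mem_coe.2 (((rTO k D hD).2.1 1 _).2 ?_)
        have h2 := hU (c + z) hz.2 (c + z0) hz0.2 (by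
          rw [map_add, map_add, (hker z).1 hz.1, (hker z0).1 hz0.1])
        have h3 : c + z - (c + z0) = z - z0 := by abel
        rwa [h3] at h2
      · intro z _ z' _ h
        exact sub_left_injective h
    rw [hHF] at h1
    exact_mod_cast h1

open Classical in
/-- the Chinese remainder theorem for two blocks -/
theorem two_count (hCT : L_CT) {k D₁ D₂ x : ℕ} (h1 : 1 ≤ D₁) (h2 : 1 ≤ D₂)
    (hco : D₁.Coprime D₂) (hx : x < D₁ * D₂) (A₁ A₂ : Set (X k)) (c : X k) :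
    (∑ κ ∈ Kr k (D₁ * D₂) x, if (phi D₂ (x % D₂) (c + κ) ∈ A₁ ∧ phi D₁ (x % D₁) (c + κ) ∈ A₂) then
      (1 : ℝ) else 0) = nn k D₁ (x / D₂) A₁ (phi D₂ (x % D₂) c) *
        nn k D₂ (x / D₁) A₂ (phi D₁ (x % D₁) c) := by
  obtain ⟨hmap, hex⟩ := hCT k D₁ D₂ x h1 h2 hco hx
  unfold nn
  rw [Finset.sum_mul_sum, ← Finset.sum_product']
  refine Finset.sum_nbij (fun κ => (phi D₂ (x % D₂) κ, phi D₁ (x % D₁) κ)) ?_ ?_ ?_ ?_
  · intro κ hκ
    exact Finset.mem_product.2 (hmap κ hκ)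
  · intro κ hκ κ' hκ' h
    have e1 : phi D₂ (x % D₂) κ = phi D₂ (x % D₂) κ' := congrArg Prod.fst h
    have e2 : phi D₁ (x % D₁) κ = phi D₁ (x % D₁) κ' := congrArg Prod.snd h
    obtain ⟨m1, m2⟩ := hmap κ' (Finset.mem_coe.1 hκ')
    obtain ⟨κ₀, _, hu⟩ := hex _ m1 _ m2
    rw [hu κ ⟨Finset.mem_coe.1 hκ, e1, e2⟩, hu κ' ⟨Finset.mem_coe.1 hκ', rfl, rfl⟩]
  · rintro ⟨κ₁, κ₂⟩ hκ
    obtain ⟨m1, m2⟩ := Finset.mem_product.1 (Finset.mem_coe.1 hκ)
    obtain ⟨κ, ⟨hκ1, hκ2, hκ3⟩, _⟩ := hex κ₁ m1 κ₂ m2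
    exact ⟨κ, Finset.mem_coe.2 hκ1, Prod.ext hκ2 hκ3⟩
  · intro κ _
    rw [map_add, map_add]
    by_cases a1 : phi D₂ (x % D₂) c + phi D₂ (x % D₂) κ ∈ A₁
    · by_cases a2 : phi D₁ (x % D₁) c + phi D₁ (x % D₁) κ ∈ A₂
      · rw [if_pos ⟨a1, a2⟩, if_pos a1, if_pos a2, one_mul]
      · rw [if_neg (fun h => a2 h.2), if_neg a2, mul_zero]
    · rw [if_neg (fun h => a1 h.1), if_neg a1, zero_mul]

/-- the product over two disjoint sets -/
theorem DS_un {S₁ S₂ : Finset ℕ} (h : Disjoint S₁ S₂) : DS (S₁ ∪ S₂) = DS S₁ * DS S₂ :=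
  Finset.prod_union h

theorem DS_co {S₁ S₂ : Finset ℕ} (h : Disjoint S₁ S₂) (h1 : ∀ p ∈ S₁, p.Prime)
    (h2 : ∀ p ∈ S₂, p.Prime) : (DS S₁).Coprime (DS S₂) := by
  unfold DS
  refine Nat.Coprime.prod_left fun p hp => Nat.Coprime.prod_right fun q hq => ?_
  refine (Nat.coprime_primes (h1 p hp) (h2 q hq)).2 fun e => ?_
  exact Finset.disjoint_left.1 h hp (e ▸ hq)

/-- a set over `V`: the mass as an integral over the points -/
theorem vol_fib (hCO : L_CO) {k D x : ℕ} (hk : 3 ≤ k) (hD : 1 ≤ D) {V A : Set (X k)}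
    (hV : MeasurableSet V) (hA : MeasurableSet A) (hAV : ∀ a ∈ A, phi D x a ∈ V) {t : X k → X k}
    (htw : ∀ w, phi D x (t w) = w)
    (hti : ∀ (F : X k → ℝ) (B : ℝ), Measurable F → (∀ a, |F a| ≤ B) →
      (D : ℝ) ^ (KN k) * ∫ a, F a = ∫ w, ∑ κ ∈ Kr k D x, F (t w + κ)) :
    (D : ℝ) ^ (KN k - k) * volume.real A = ∫ w in V, nn k D x A (t w) / (D : ℝ) ^ k := by
  classical
  have hD0 : (0 : ℝ) < (D : ℝ) ^ k := by
    have : (0 : ℝ) < D := by exact_mod_cast hD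
    positivity
  obtain ⟨-, hker⟩ := hCO.2.2.2.1 k D x hD
  have h1 := hti (A.indicator fun _ => 1) 1 (measurable_const.indicator hA) (by
    intro a
    by_cases ha : a ∈ A
    · rw [Set.indicator_of_mem ha, abs_one]
    · rw [Set.indicator_of_notMem ha, abs_zero]
      norm_num)
  rw [integral_indicator hA, setIntegral_const, smul_eq_mul, mul_one, pow_KN hk] at h1
  have h2 : ∀ w, ∑ κ ∈ Kr k D x, (A.indicator (fun _ => (1 : ℝ))) (t w + κ) =
      V.indicator (fun w => (D : ℝ) ^ k * (nn k D x A (t w) / (D : ℝ) ^ k)) w := by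
    intro w
    by_cases hw : w ∈ V
    · rw [Set.indicator_of_mem hw, mul_div_cancel₀ _ hD0.ne']
      unfold nn
      refine Finset.sum_congr rfl fun κ _ => ?_
      by_cases ha : t w + κ ∈ A
      · rw [Set.indicator_of_mem ha, if_pos ha]
      · rw [Set.indicator_of_notMem ha, if_neg ha]
    · rw [Set.indicator_of_notMem hw]
      refine Finset.sum_eq_zero fun κ hκ => ?_
      rw [Set.indicator_of_notMem]
      intro h
      apply hw
      have h3 := hAV _ h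
      rwa [map_add, htw, (hker κ).1 hκ, add_zero] at h3
  rw [integral_congr_ae (Filter.Eventually.of_forall h2), integral_indicator hV,
    integral_const_mul] at h1
  exact mul_left_cancel₀ hD0.ne' ((mul_assoc _ _ _).symm.trans h1)

open Classical in
theorem pf_PRD (hSC : L_SC) (hCO : L_CO) (hCT : L_CT) (hCOL : T_COL) (hMEA : T_MEA)
    (hSTU : T_STU) : T_PRD := by
  intro k Q V Ge Gd P m τ Ω kap hS
  have hk := hS.hk
  have hV := hS.mV
  have hex : ∀ D x : ℕ, ∃ s : X k → X k, 1 ≤ D → (Measurable s ∧ (∀ w, phi D x (s w) = w) ∧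
      ∀ (F : X k → ℝ) (B : ℝ), Measurable F → (∀ a, |F a| ≤ B) →
      (D : ℝ) ^ (KN k) * ∫ a, F a = ∫ w, ∑ κ ∈ Kr k D x, F (s w + κ)) := by
    intro D x
    by_cases hD : 1 ≤ D
    · obtain ⟨s, h⟩ := hSC k D x hD
      exact ⟨s, fun _ => h⟩
    · exact ⟨id, fun h => absurd h hD⟩
  choose s hs using hex
  have hpr : ∀ S ⊆ Q, ∀ p ∈ S, p.Prime := fun S hSQ p hp => (hS.pr p (hSQ hp)).1
  have hDp : ∀ S ⊆ Q, 1 ≤ DS S := fun S hSQ => DS_pos (hpr S hSQ)
  have hsd : ∀ S ⊆ Q, SDatP k S V Ge Gd P m τ Ω := fun S hSQ =>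
    Pool.Agent.H31.EST.SDatP_mono hS hSQ
  have hGm : ∀ S ⊆ Q, ∀ x, MeasurableSet {b : X k | Good S V Gd kap b x} := by
    intro S hSQ x
    exact (hMEA k S S V Ge Gd P m τ Ω (by rw [Finset.union_self]; exact hsd S hSQ)).2.2.1 kap x
  refine ⟨fun S x w => if S ⊆ Q ∧ x < DS S then
    nn k (DS S) x {b : X k | Good S V Gd kap b x} (s (DS S) x w) / (DS S : ℝ) ^ k else 0,
    ?_, ?_, ?_, ?_⟩
  · intro S x
    by_cases h : S ⊆ Q ∧ x < DS S
    · simp only [if_pos h]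
      exact (nn_meas (hGm S h.1 x) (hs (DS S) x (hDp S h.1)).1).div_const _
    · simp only [if_neg h]
      exact measurable_const
  · intro S x w
    by_cases h : S ⊆ Q ∧ x < DS S
    · simp only [if_pos h]
      have hp0 : (0 : ℝ) < (DS S : ℝ) ^ k := by
        have : (0 : ℝ) < DS S := by exact_mod_cast hDp S h.1
        positivity
      refine ⟨div_nonneg nn_nonneg hp0.le, ?_⟩
      rw [div_le_one hp0]
      refine nn_le_cls (hDp S h.1) hCO ?_ _
      intro a ha a' ha' e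
      exact (hSTU k S V Ge Gd P m τ Ω (hsd S h.1)).1 x h.2 a a' ha.1 ha'.1 e
    · simp only [if_neg h]
      exact ⟨le_rfl, zero_le_one⟩
  · intro S hSQ x hx
    simp only [if_pos (And.intro hSQ hx)]
    obtain ⟨-, hsw, hsi⟩ := hs (DS S) x (hDp S hSQ)
    exact vol_fib hCO hk (hDp S hSQ) hV (hGm S hSQ x) (fun a ha => ha.1.1) hsw hsi
  · intro S₁ hS₁ S₂ hS₂ hdis x hx
    have hU : S₁ ∪ S₂ ⊆ Q := Finset.union_subset hS₁ hS₂
    have hDU : 1 ≤ DS (S₁ ∪ S₂) := hDp _ hU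
    have hDe := DS_un hdis
    have hco := DS_co hdis (hpr S₁ hS₁) (hpr S₂ hS₂)
    obtain ⟨-, htw, hti⟩ := hs (DS (S₁ ∪ S₂)) x hDU
    have hmT : MeasurableSet {b : X k | Two S₁ S₂ V Gd kap b x} :=
      (hMEA k S₁ S₂ V Ge Gd P m τ Ω (hsd _ hU)).2.2.2.1 kap x
    have hcol := (hCOL k S₁ S₂ V Ge Gd P m τ Ω hdis (hsd _ hU)).1
    rw [vol_fib hCO hk hDU hV hmT (fun a ha => ((hcol x a).2 ⟨ha.1.1, ha.2.1⟩).1) htw hti]
    refine integral_congr_ae (Filter.Eventually.of_forall fun w => ?_)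
    have hx1 : x / DS S₂ < DS S₁ := by
      refine Nat.div_lt_of_lt_mul ?_
      rw [mul_comm, ← hDe]
      exact hx
    have hx2 : x / DS S₁ < DS S₂ := by
      refine Nat.div_lt_of_lt_mul ?_
      rw [← hDe]
      exact hx
    have hxx : x < DS S₁ * DS S₂ := by rw [← hDe]; exact hx
    simp only [if_pos (And.intro hS₁ hx1), if_pos (And.intro hS₂ hx2)]
    have e1 : nn k (DS (S₁ ∪ S₂)) x {b : X k | Two S₁ S₂ V Gd kap b x}
        (s (DS (S₁ ∪ S₂)) x w) =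
        nn k (DS S₁) (x / DS S₂) {b : X k | Good S₁ V Gd kap b (x / DS S₂)}
          (phi (DS S₂) (x % DS S₂) (s (DS (S₁ ∪ S₂)) x w)) *
        nn k (DS S₂) (x / DS S₁) {b : X k | Good S₂ V Gd kap b (x / DS S₁)}
          (phi (DS S₁) (x % DS S₁) (s (DS (S₁ ∪ S₂)) x w)) := by
      rw [← two_count hCT (hDp S₁ hS₁) (hDp S₂ hS₂) hco hxx]
      unfold nn
      rw [hDe]
      refine Finset.sum_congr rfl fun κ _ => ?_
      exact if_congr Iff.rfl rfl rfl
    have e2 : nn k (DS S₁) (x / DS S₂) {b : X k | Good S₁ V Gd kap b (x / DS S₂)}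
          (phi (DS S₂) (x % DS S₂) (s (DS (S₁ ∪ S₂)) x w)) =
        nn k (DS S₁) (x / DS S₂) {b : X k | Good S₁ V Gd kap b (x / DS S₂)}
          (s (DS S₁) (x / DS S₂) w) := by
      refine nn_shift hCO (hDp S₁ hS₁) _ _ _ ?_
      rw [(hs (DS S₁) (x / DS S₂) (hDp S₁ hS₁)).2.1, hCO.1, Nat.mod_add_div, ← hDe, htw]
    have e3 : nn k (DS S₂) (x / DS S₁) {b : X k | Good S₂ V Gd kap b (x / DS S₁)}
          (phi (DS S₁) (x % DS S₁) (s (DS (S₁ ∪ S₂)) x w)) =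
        nn k (DS S₂) (x / DS S₁) {b : X k | Good S₂ V Gd kap b (x / DS S₁)}
          (s (DS S₂) (x / DS S₁) w) := by
      refine nn_shift hCO (hDp S₂ hS₂) _ _ _ ?_
      rw [(hs (DS S₂) (x / DS S₁) (hDp S₂ hS₂)).2.1, hCO.1, Nat.mod_add_div, mul_comm, ← hDe, htw]
    rw [e1, e2, e3, hDe]
    push_cast
    rw [mul_pow, mul_div_mul_comm]

end Pool.Agent.H31.EH
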